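import Pool.Agent.T2h83.AM.Pq

/-!
# Prime pairs with the difference `h` in the intervals `(n + 4, Y)`, `Y ≤ 2 ^ (n + 4)`: small differences `h` in ALL the
# residue classes of almost all moduli up to `2 ^ n / n ^ K`

The problem asks for a prime `p`, `n + 4 < p < 2 ^ (n + 4)`, with `p + 2` prime. We replace the difference `2` by even
differences `h ≤ 2 ^ n / n ^ (C + 5)` in a residue class `b` of a modulus `q`.

For all `A, B, C` there is a `K` such that for all large `n` and all `M ≤ 2 ^ n / n ^ K`: for all moduli `q` in `(M, 2 M]`,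
except for at most `M / n ^ A` of them, and for ALL residue classes `b` modulo `q` (there is no condition on `gcd(b, q)`),
all but at most `2 ^ n / (q n ^ A)` of the even `h ≤ 2 ^ n / n ^ (C + 5)`, `h ≡ b (mod q)`, have the following property:
for ALL `Y ≤ 2 ^ (n + 4)`, all `m ≤ n ^ B` and all classes `a` modulo `m` with `gcd(a, m) = gcd(a + h, m) = 1`, the number of
the primes `p > n + 4`, `p ≡ a (mod m)`, with `p + h` prime and `p + h ≤ Y`, is
`𝔖(h) / ν_m(h) ∫_2^Y dt / log² t` with an error of at most `2 ^ n / n ^ C`, where `ν_m(h)` is the number of these classes.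
For the largest moduli `q` each class contains only `n ^ (K - C - 5)` differences `h`.

Proof: the large values of the exponential sum of the difference of the von Mangoldt function and a sieve model on the
translates `β + c / q` are counted for all moduli `q` at once (large sieve on cells, Fejer kernels, `T2h83/AM`); the passage
to the number of pairs in progressions is from the starting files (`R460/GQ`, `W93/PP`).
-/

set_option autoImplicit false

namespace Pool.Agent.Results.MP_b51559_nt.AllClassesAlmostAllModuli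

open Finset
open Pool.Agent.H560R3.GB (sing)

/-- the number of the primes `p > n + 4` with `p + h` prime, `p + h ≤ Y` and `p ≡ a (mod m)` -/
def pairs (n h Y a m : ℕ) : ℕ :=
  ((Icc 1 Y).filter (fun p => n + 4 < p ∧ p.Prime ∧ (p + h).Prime ∧ p + h ≤ Y ∧ p ≡ a [MOD m])).card

/-- the number of the classes `α` modulo `m` such that `α` and `α + h` are coprime to `m` -/
def classes (m h : ℕ) : ℕ := ((range m).filter (fun α => Nat.Coprime α m ∧ Nat.Coprime (α + h) m)).card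

/-- the predicted numbers of the prime pairs with the difference `h` in the intervals `(n + 4, Y]`, in progressions -/
def Good (B C n h : ℕ) : Prop :=
  ∀ m a : ℕ, 1 ≤ m → m ≤ n ^ B → Nat.Coprime a m → Nat.Coprime (a + h) m → ∀ Y : ℕ, 2 ≤ Y → Y ≤ 2 ^ (n + 4) →
    |(pairs n h Y a m : ℝ) - sing h / classes m h * ∫ t in (2 : ℝ)..Y, 1 / Real.log t ^ 2| ≤ (2 : ℝ) ^ n / (n : ℝ) ^ C

open Classical in
/-- the even `h ≤ 2 ^ n / n ^ (C + 5)` with `h ≡ b (mod q)` which are not good -/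
noncomputable def bad (B C n q : ℕ) (b : ℤ) : Finset ℕ :=
  (Icc 1 (2 ^ n)).filter (fun h : ℕ => (h : ℝ) ≤ (2 : ℝ) ^ n / (n : ℝ) ^ (C + 5) ∧ Even h ∧ (h : ℤ) ≡ b [ZMOD q] ∧
    ¬ Good B C n h)

lemma pairs_near (n h Y a m : ℕ) :
    |(pairs n h Y a m : ℝ) - Pool.Agent.W93.PP.pc h (Y : ℝ) a m| ≤ n + 5 := by
  classical
  obtain ⟨S, hS⟩ : ∃ S, S = (range (Y + 1)).filter
      (fun p => p.Prime ∧ (p + h).Prime ∧ (p : ℝ) + h ≤ (Y : ℝ) ∧ p ≡ a [MOD m]) := ⟨_, rfl⟩
  have e1 : Pool.Agent.W93.PP.pc h (Y : ℝ) a m = S.card := by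
    unfold Pool.Agent.W93.PP.pc
    rw [hS, Nat.floor_natCast]
  obtain ⟨T, hT⟩ : ∃ T, T = (Icc 1 Y).filter
      (fun p => n + 4 < p ∧ p.Prime ∧ (p + h).Prime ∧ p + h ≤ Y ∧ p ≡ a [MOD m]) := ⟨_, rfl⟩
  have e2 : pairs n h Y a m = T.card := by
    unfold pairs
    rw [hT]
  have h1 : T ⊆ S := by
    intro p hp
    rw [hT, mem_filter, mem_Icc] at hp
    rw [hS, mem_filter, mem_range]
    refine ⟨by omega, hp.2.2.1, hp.2.2.2.1, ?_, hp.2.2.2.2.2⟩
    exact_mod_cast hp.2.2.2.2.1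
  have h2 : S ⊆ T ∪ range (n + 5) := by
    intro p hp
    rw [hS, mem_filter, mem_range] at hp
    rw [mem_union, hT, mem_filter, mem_Icc, mem_range]
    by_cases h3 : n + 4 < p
    · left
      refine ⟨⟨hp.2.1.one_le, by omega⟩, h3, hp.2.1, hp.2.2.1, ?_, hp.2.2.2.2⟩
      exact_mod_cast hp.2.2.2.1
    · right
      omega
  have h3 := card_le_card h1
  have h4 := (card_le_card h2).trans (card_union_le _ _)
  rw [card_range] at h4
  have h3r : (T.card : ℝ) ≤ S.card := by exact_mod_cast h3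
  have h4r : (S.card : ℝ) ≤ T.card + (n + 5) := by exact_mod_cast h4
  rw [e1, e2, abs_le]
  constructor <;> linarith

/-- For all `A, B, C` there is a `K` such that for all large `n` and all `M` with `M n ^ K ≤ 2 ^ n`: for all the `q` in
`(M, 2 M]` except for at most `M / n ^ A` of them and for all integers `b`, at most `2 ^ n / (q n ^ A)` of the even
`h ≤ 2 ^ n / n ^ (C + 5)` with `h ≡ b (mod q)` are not good. -/
theorem result (A B C : ℕ) : ∃ K n₀ : ℕ, ∀ n : ℕ, n₀ ≤ n → ∀ M : ℕ, M * n ^ K ≤ 2 ^ n →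
    ∃ S : Finset ℕ, (S.card : ℝ) ≤ M / (n : ℝ) ^ A ∧ ∀ q ∈ Ioc M (2 * M), q ∉ S → ∀ b : ℤ,
      ((bad B C n q b).card : ℝ) ≤ (2 : ℝ) ^ n / (q * (n : ℝ) ^ A) := by
  classical
  obtain ⟨K, X₀, h0⟩ := Pool.Agent.T2h83.AM.gq_A (A + 1) (B + 1) (C + 1)
  obtain ⟨R, hR⟩ : ∃ R : ℕ, R = 2 ^ (A + 1) + 2 ^ B + 2 ^ (C + 1) := ⟨_, rfl⟩
  obtain ⟨n₁, hn₁⟩ : ∃ n₁ : ℕ, ∀ n : ℕ, n₁ ≤ n → 2 * ((n : ℝ) + 5) * (n : ℝ) ^ C ≤ (2 : ℝ) ^ n := by
    have h1 := (tendsto_pow_const_div_const_pow_of_one_lt (C + 1) (show (1 : ℝ) < 2 by norm_num)).eventually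
      (gt_mem_nhds (show (0 : ℝ) < 1 / 4 by norm_num))
    obtain ⟨n₁, h2⟩ := Filter.eventually_atTop.1 h1
    refine ⟨n₁ + 5, fun n hn => ?_⟩
    have h3 := h2 n (by omega)
    rw [div_lt_iff₀ (by positivity)] at h3
    have h5 : (5 : ℝ) ≤ n := by exact_mod_cast (by omega : 5 ≤ n)
    have h4 : 2 * ((n : ℝ) + 5) * (n : ℝ) ^ C ≤ 4 * (n : ℝ) ^ (C + 1) := by
      calc 2 * ((n : ℝ) + 5) * (n : ℝ) ^ C ≤ (4 * n) * (n : ℝ) ^ C :=
            mul_le_mul_of_nonneg_right (by linarith) (by positivity)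
        _ = 4 * (n : ℝ) ^ (C + 1) := by ring
    linarith
  refine ⟨K, X₀ + n₁ + 64 * R + 10, fun n hn M hM => ?_⟩
  obtain ⟨X, hX⟩ : ∃ X : ℕ, X = 2 ^ (n + 4) := ⟨_, rfl⟩
  have hXr : (X : ℝ) = 16 * (2 : ℝ) ^ n := by
    rw [hX]
    push_cast
    rw [pow_add]
    norm_num
    ring
  have hXn : n < X := by
    rw [hX]
    calc n < 2 ^ n := Nat.lt_two_pow_self
      _ ≤ 2 ^ (n + 4) := Nat.pow_le_pow_right (by norm_num) (by omega)
  have hXX₀ : X₀ ≤ X := by omega
  have h2n : (0 : ℝ) < (2 : ℝ) ^ n := by positivity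
  have hX0 : (0 : ℝ) < X := by rw [hXr]; positivity
  obtain ⟨L, hL⟩ : ∃ L, L = Real.log (X : ℝ) := ⟨_, rfl⟩
  have hn10 : (10 : ℝ) ≤ n := by exact_mod_cast (by omega : 10 ≤ n)
  have hn0 : (0 : ℝ) < n := by linarith
  have hn1 : (1 : ℝ) ≤ n := by linarith
  have hLv : L = ((n : ℝ) + 4) * Real.log 2 := by
    rw [hL, hX]
    push_cast
    rw [Real.log_pow]
    push_cast
    ring
  have hL1 : (n : ℝ) / 2 ≤ L := by
    rw [hLv]
    have := Real.log_two_gt_d9
    nlinarith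
  have hL2 : L ≤ n := by
    rw [hLv]
    have := Real.log_two_lt_d9
    nlinarith
  have hRn : (64 * R : ℝ) ≤ n := by exact_mod_cast (by omega : 64 * R ≤ n)
  have hRA : (2 : ℝ) ^ (A + 1) ≤ R := by
    rw [hR]
    push_cast
    have : (0 : ℝ) ≤ 2 ^ B := by positivity
    have : (0 : ℝ) ≤ 2 ^ (C + 1) := by positivity
    linarith
  have hRB : (2 : ℝ) ^ B ≤ R := by
    rw [hR]
    push_cast
    have : (0 : ℝ) ≤ 2 ^ (A + 1) := by positivity
    have : (0 : ℝ) ≤ 2 ^ (C + 1) := by positivity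
    linarith
  have hRC : (2 : ℝ) ^ (C + 1) ≤ R := by
    rw [hR]
    push_cast
    have : (0 : ℝ) ≤ 2 ^ (A + 1) := by positivity
    have : (0 : ℝ) ≤ 2 ^ B := by positivity
    linarith
  have hL0 : 0 < L := by linarith
  have hL1' : 1 ≤ L := by linarith
  have hR0 : (0 : ℝ) ≤ R := Nat.cast_nonneg R
  -- powers
  have hpw : ∀ k : ℕ, (n : ℝ) ^ (k + 1) ≤ 2 ^ (k + 1) * L ^ (k + 1) := by
    intro k
    rw [← mul_pow]
    exact pow_le_pow_left₀ hn0.le (by linarith) _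
  obtain ⟨S, hS1, hS2⟩ := h0 X hXX₀ M (by
    rw [← hL]
    have h1 : ((M * n ^ K : ℕ) : ℝ) ≤ ((2 ^ n : ℕ) : ℝ) := by exact_mod_cast hM
    push_cast at h1
    calc (M : ℝ) * L ^ K ≤ M * (n : ℝ) ^ K := by gcongr
      _ ≤ (2 : ℝ) ^ n := h1
      _ ≤ X := by rw [hXr]; linarith)
  rw [← hL] at hS1
  refine ⟨S, ?_, fun q hqM hqS b => ?_⟩
  · refine hS1.trans ?_
    rw [div_le_div_iff₀ (by positivity) (by positivity)]
    apply mul_le_mul_of_nonneg_left _ (Nat.cast_nonneg _)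
    have h1 := hpw A
    have h2 : (n : ℝ) ^ A * n ≤ n * L ^ (A + 1) := by
      calc (n : ℝ) ^ A * n = (n : ℝ) ^ (A + 1) := by ring
        _ ≤ 2 ^ (A + 1) * L ^ (A + 1) := h1
        _ ≤ n * L ^ (A + 1) := by
            apply mul_le_mul_of_nonneg_right _ (by positivity)
            linarith
    nlinarith
  have hq1 : 1 ≤ q := by rw [mem_Ioc] at hqM; omega
  have hq0 : (0 : ℝ) < q := by exact_mod_cast hq1
  have hmain := hS2 q hqM hqS (b % (q : ℤ)).toNat
  rw [← hL] at hmain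
  have hsub : bad B C n q b ⊆ Pool.Agent.R460.GQ.badH (B + 1) (C + 1) X q (b % (q : ℤ)).toNat := by
    intro h hh
    unfold bad at hh
    rw [mem_filter, mem_Icc] at hh
    obtain ⟨⟨h1, h2⟩, h3, h4, h5, h6⟩ := hh
    unfold Pool.Agent.R460.GQ.badH
    rw [mem_filter, mem_Icc, ← hL]
    refine ⟨⟨h1, h2.trans ?_⟩, ?_, h4.two_dvd, Pool.Agent.R460.GS.mod_iff' h q b hq1 h5, fun hg => h6 ?_⟩
    · rw [hX]
      exact Nat.pow_le_pow_right (by norm_num) (by omega)
    · refine h3.trans ?_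
      rw [div_le_div_iff₀ (by positivity) (by positivity), hXr]
      calc (2 : ℝ) ^ n * L ^ (C + 1 + 4) ≤ (2 : ℝ) ^ n * (n : ℝ) ^ (C + 1 + 4) := by gcongr
        _ ≤ 16 * (2 : ℝ) ^ n * (n : ℝ) ^ (C + 5) := by
            have e : (n : ℝ) ^ (C + 1 + 4) = (n : ℝ) ^ (C + 5) := by ring
            rw [e]
            have : 0 ≤ (2 : ℝ) ^ n * (n : ℝ) ^ (C + 5) := by positivity
            linarith
    · intro m a hm1 hmB ha hah Y hY2 hY
      have hmB' : (m : ℝ) ≤ Real.log X ^ (B + 1) := by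
        rw [← hL]
        calc (m : ℝ) ≤ ((n ^ B : ℕ) : ℝ) := by exact_mod_cast hmB
          _ = (n : ℝ) ^ B := by push_cast; ring
          _ ≤ (2 * L) ^ B := pow_le_pow_left₀ hn0.le (by linarith) _
          _ = 2 ^ B * L ^ B := mul_pow _ _ _
          _ ≤ L * L ^ B := by
              apply mul_le_mul_of_nonneg_right _ (by positivity)
              linarith
          _ = L ^ (B + 1) := by ring
      have k1 := hg m a hm1 hmB' ha hah (Y : ℝ) (by exact_mod_cast hY2) (by rw [hX]; exact_mod_cast hY)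
      have k2 := pairs_near n h Y a m
      have k3 : classes m h = Pool.Agent.W93.PP.Cnt m h := rfl
      have k4 : (∫ t in (2 : ℝ)..Y, 1 / Real.log t ^ 2) = Pool.Agent.W93.PP.Li2 (Y : ℝ) := rfl
      rw [k3, k4]
      rw [← hL] at k1
      have k5 : (X : ℝ) / L ^ (C + 1) ≤ (2 : ℝ) ^ n / (n : ℝ) ^ C / 2 := by
        rw [div_div, div_le_div_iff₀ (by positivity) (by positivity), hXr]
        have h7 := hpw C
        calc 16 * (2 : ℝ) ^ n * ((n : ℝ) ^ C * 2) = (2 : ℝ) ^ n * (32 * (n : ℝ) ^ C) := by ring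
          _ ≤ (2 : ℝ) ^ n * L ^ (C + 1) := by
              apply mul_le_mul_of_nonneg_left _ h2n.le
              have h8 : 32 * 2 ^ (C + 1) * (n : ℝ) ^ C ≤ n * (n : ℝ) ^ C := by
                apply mul_le_mul_of_nonneg_right _ (by positivity)
                linarith
              have h9 : 32 * 2 ^ (C + 1) * (n : ℝ) ^ C ≤ 2 ^ (C + 1) * L ^ (C + 1) := by
                calc 32 * 2 ^ (C + 1) * (n : ℝ) ^ C ≤ n * (n : ℝ) ^ C := h8
                  _ = (n : ℝ) ^ (C + 1) := by ring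
                  _ ≤ _ := h7
              have h10 : (0 : ℝ) < 2 ^ (C + 1) := by positivity
              have h11 : 2 ^ (C + 1) * (32 * (n : ℝ) ^ C) ≤ 2 ^ (C + 1) * L ^ (C + 1) := by linarith
              exact le_of_mul_le_mul_left h11 h10
      have k6 : (n : ℝ) + 5 ≤ (2 : ℝ) ^ n / (n : ℝ) ^ C / 2 := by
        have := hn₁ n (by omega)
        rw [div_div, le_div_iff₀ (by positivity)]
        linarith
      calc |(pairs n h Y a m : ℝ) - sing h / Pool.Agent.W93.PP.Cnt m h * Pool.Agent.W93.PP.Li2 (Y : ℝ)|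
          ≤ |(pairs n h Y a m : ℝ) - Pool.Agent.W93.PP.pc h (Y : ℝ) a m| +
            |(Pool.Agent.W93.PP.pc h (Y : ℝ) a m : ℝ) -
              sing h / Pool.Agent.W93.PP.Cnt m h * Pool.Agent.W93.PP.Li2 (Y : ℝ)| := abs_sub_le _ _ _
        _ ≤ (2 : ℝ) ^ n / (n : ℝ) ^ C / 2 + (2 : ℝ) ^ n / (n : ℝ) ^ C / 2 :=
            add_le_add (k2.trans k6) (k1.trans k5)
        _ = _ := by ring
  have h1 : ((bad B C n q b).card : ℝ) ≤ (X : ℝ) / (q * L ^ (A + 1)) :=
    le_trans (by exact_mod_cast card_le_card hsub) hmain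
  refine h1.trans ?_
  rw [div_le_div_iff₀ (by positivity) (by positivity), hXr]
  have h2 := hpw A
  have h3 : 16 * (n : ℝ) ^ A ≤ L ^ (A + 1) := by
    have h8 : 16 * 2 ^ (A + 1) * (n : ℝ) ^ A ≤ n * (n : ℝ) ^ A := by
      apply mul_le_mul_of_nonneg_right _ (by positivity)
      linarith
    have h10 : (0 : ℝ) < 2 ^ (A + 1) := by positivity
    have h11 : 2 ^ (A + 1) * (16 * (n : ℝ) ^ A) ≤ 2 ^ (A + 1) * L ^ (A + 1) := by
      calc 2 ^ (A + 1) * (16 * (n : ℝ) ^ A) = 16 * 2 ^ (A + 1) * (n : ℝ) ^ A := by ring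
        _ ≤ n * (n : ℝ) ^ A := h8
        _ = (n : ℝ) ^ (A + 1) := by ring
        _ ≤ _ := h2
    exact le_of_mul_le_mul_left h11 h10
  calc 16 * (2 : ℝ) ^ n * (q * (n : ℝ) ^ A) = (2 : ℝ) ^ n * (q * (16 * (n : ℝ) ^ A)) := by ring
    _ ≤ (2 : ℝ) ^ n * (q * L ^ (A + 1)) := by gcongr

end Pool.Agent.Results.MP_b51559_nt.AllClassesAlmostAllModuli
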