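import Mathlib
import Pool.Agent.T2h83.US.Odd

/-!
# Primes of an arbitrary set in the interval `(n + 4, 2 ^ (n + 4))` and given differences

The problem asks for a prime `p`, `n + 4 < p < 2 ^ (n + 4)`, with `p + 2` prime. Let `U` be ANY set of at least `2 ^ n / n ^ A`
primes in the interval `(n + 4, 2 ^ (n + 4))`. We replace `2` by `k` differences `h` and prove that for all vectors of
differences, outside an exceptional set of relative size `ε`, at least `(1 - ε) #U / (V(y) log 2 ^ (n + 4)) ^ k` elements `p` of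
`U` have all the numbers `p + h i` prime, where `V(y)` is the product of the `1 - 1 / l` over the primes `l ≤ y`; the
differences are multiples of all the primes up to `y`, where `y` is a multiple of `log n`. They run over residue classes
modulo almost all moduli up to `2 ^ n / n ^ B`, where the classes have only a power of `n` elements. Nothing is assumed about
the set `U`.

Method: for the elements of `U` and the differences of a class the von Mangoldt function is replaced by a sieve model (large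
sieve over the cells of almost all moduli, project AM); the second moment of the number of the `p ∈ U` for which `p + h` has no
small prime factor, over the differences of the class, is found by the fundamental lemma of the sieve and averages over the
pairs of elements of `U`. For several differences the result for one is applied to the subsets found before.
-/

set_option autoImplicit false

namespace Pool.Agent.Results.MP_b51559_nt.ArbitrarySetsOfPrimes

open Finset

/-- the product of the `1 - 1 / p` over the primes `p ≤ y` -/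
noncomputable def V (y : ℕ) : ℝ := ∏ p ∈ (Icc 1 y).filter Nat.Prime, (1 - 1 / (p : ℝ))

/-- the positive integers `m ≡ r (mod q)` with `primorial y * m ≤ 2 ^ (n + 4)` (`primorial y` is the product of the primes up to
`y`); their differences are the numbers `primorial y * m` -/
def class' (n y q r : ℕ) : Finset ℕ :=
  (Icc 1 (2 ^ (n + 4))).filter (fun m => primorial y * m ≤ 2 ^ (n + 4) ∧ m ≡ r [MOD q])

/-- the number of the elements `p` of `U` for which all the numbers `p + primorial y * m i` are prime -/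
def hits {k : ℕ} (U : Finset ℕ) (y : ℕ) (m : Fin k → ℕ) : ℕ :=
  (U.filter (fun p => ∀ i, (p + primorial y * m i).Prime)).card

/-- comparison of powers -/
lemma pow_cmp (k A n : ℕ) (h : k < A) (hn : 2 ^ A ≤ n) :
    (n : ℝ) ^ k ≤ Real.log ((2 : ℝ) ^ (n + 4)) ^ A := by
  have h1 : (n : ℝ) / 2 ≤ Real.log ((2 : ℝ) ^ (n + 4)) := by
    rw [Real.log_pow]
    have h2 := Real.log_two_gt_d9
    have h3 : (0 : ℝ) ≤ n := Nat.cast_nonneg n
    push_cast
    nlinarith
  have h2 : ((2 : ℝ) ^ A) ≤ n := by exact_mod_cast hn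
  have h3 : (0 : ℝ) < n := lt_of_lt_of_le (by positivity) h2
  have h4 : (1 : ℝ) ≤ n := le_trans (one_le_pow₀ (by norm_num)) h2
  calc (n : ℝ) ^ k ≤ ((n : ℝ) / 2) ^ A := by
        rw [div_pow, le_div_iff₀ (by positivity)]
        calc (n : ℝ) ^ k * 2 ^ A ≤ (n : ℝ) ^ k * n := by gcongr
          _ = (n : ℝ) ^ (k + 1) := (pow_succ _ _).symm
          _ ≤ (n : ℝ) ^ A := pow_le_pow_right₀ h4 h
    _ ≤ _ := pow_le_pow_left₀ (by positivity) h1 A

/-- Let `k`, `A`, `T` be natural numbers and `0 < ε ≤ 1`. There is `K₀` such that for every `K₁` there are `B` and `n₀` such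
that for all `n ≥ n₀`, all `y` between `K₀ log n` and `K₁ log n` and all integers `Q` with `Q n ^ B ≤ 2 ^ n` there
is a set `E` of at most `Q / n ^ T` integers such that the following holds for all `q 1, …, q k` in `(Q, 2 Q]` outside
`E` and all residue classes `r i` modulo `q i` for which the prime factors `p` of `q i`, `y < p ≤ n ^ B`, divide
`r i` (for instance, all classes if the `q i` are primes larger than `n ^ B`). For EVERY set `U` of at least `2 ^ n / n ^ A` primes `p` with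
`n + 4 < p < 2 ^ (n + 4)`, for all vectors of `m i` in `class' n y (q i) (r i)`, except for at most `ε` times the product of the
`2 ^ (n + 4) / (primorial y * q i)`, at least `(1 - ε) #U / (V y log 2 ^ (n + 4)) ^ k` elements `p` of `U` have all the numbers
`p + primorial y * m i` prime. -/
theorem result (k A T : ℕ) (ε : ℝ) (hε : 0 < ε) (hε1 : ε ≤ 1) : ∃ K₀ : ℕ, ∀ K₁ : ℕ, ∃ B n₀ : ℕ, ∀ n : ℕ, n₀ ≤ n →
    ∀ y : ℕ, K₀ * Real.log n ≤ y → (y : ℝ) ≤ K₁ * Real.log n → ∀ Q : ℕ, (Q : ℝ) * (n : ℝ) ^ B ≤ 2 ^ n →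
    ∃ E : Finset ℕ, (E.card : ℝ) ≤ Q / (n : ℝ) ^ T ∧ ∀ q r : Fin k → ℕ,
      (∀ i, q i ∈ Ioc Q (2 * Q) ∧ q i ∉ E) →
      (∀ i, ∀ p : ℕ, p.Prime → y < p → p ≤ n ^ B → p ∣ q i → p ∣ r i) →
      ∀ U : Finset ℕ, (∀ p ∈ U, p.Prime ∧ n + 4 < p ∧ p < 2 ^ (n + 4)) → (2 : ℝ) ^ n ≤ U.card * (n : ℝ) ^ A →
        (((Fintype.piFinset (fun i => class' n y (q i) (r i))).filter (fun m =>
          (hits U y m : ℝ) < (1 - ε) * (U.card / (V y * Real.log ((2 : ℝ) ^ (n + 4))) ^ k))).card : ℝ) ≤
          ε * ∏ i, ((2 : ℝ) ^ (n + 4) / (primorial y * q i)) := by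
  classical
  obtain ⟨K₀, h1⟩ := Pool.Agent.T2h83.US.us_vec k 1 (A + 2) (T + 1) ε hε hε1
  refine ⟨K₀, fun K₁ => ?_⟩
  obtain ⟨B, x₁, h2⟩ := h1 (2 * K₁)
  obtain ⟨M, hM⟩ : ∃ M : ℕ, M = 2 ^ (T + 1) + 2 ^ (A + 2) := ⟨_, rfl⟩
  have hMT : 2 ^ (T + 1) ≤ M := by rw [hM]; exact Nat.le_add_right _ _
  have hMA : 2 ^ (A + 2) ≤ M := by rw [hM]; exact Nat.le_add_left _ _
  refine ⟨B, x₁ + M + 16, fun n hn y hy1 hy2 Q hQ => ?_⟩
  have hnN : n ≤ 2 ^ (n + 4) := by
    have e1 : n < 2 ^ n := Nat.lt_two_pow_self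
    exact e1.le.trans (Nat.pow_le_pow_right (by norm_num) (by omega))
  have hn16 : (16 : ℝ) ≤ n := by exact_mod_cast (by omega : 16 ≤ n)
  have hn0 : (0 : ℝ) < n := by linarith
  have hcast : (((2 ^ (n + 4) : ℕ) : ℝ)) = (2 : ℝ) ^ (n + 4) := by push_cast; rfl
  have a1 := h2 (2 ^ (n + 4)) (le_trans (by omega) hnN) y
  rw [hcast] at a1
  have p1 : (n : ℝ) ^ T ≤ Real.log ((2 : ℝ) ^ (n + 4)) ^ (T + 1) := pow_cmp T (T + 1) n (by omega) (by omega)
  have p2 : (n : ℝ) ^ (A + 1) ≤ Real.log ((2 : ℝ) ^ (n + 4)) ^ (A + 2) := pow_cmp (A + 1) (A + 2) n (by omega) (by omega)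
  have hLn : Real.log ((2 : ℝ) ^ (n + 4)) ≤ n := by
    rw [Real.log_pow]
    have := Real.log_two_lt_d9
    push_cast
    nlinarith
  have hLn2 : (n : ℝ) / 2 ≤ Real.log ((2 : ℝ) ^ (n + 4)) := by
    rw [Real.log_pow]
    have := Real.log_two_gt_d9
    push_cast
    nlinarith
  obtain ⟨L, hL⟩ : ∃ L, L = Real.log ((2 : ℝ) ^ (n + 4)) := ⟨_, rfl⟩
  rw [← hL] at a1 p1 p2 hLn hLn2 ⊢
  have hL0 : 0 < L := by linarith
  have hL1 : 1 ≤ L := by linarith
  have hlogL : Real.log L ≤ Real.log n := Real.log_le_log hL0 hLn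
  have hlogn : Real.log n ≤ 2 * Real.log L := by
    have e1 : (n : ℝ) ≤ L ^ 2 := by nlinarith
    have e2 := Real.log_le_log hn0 e1
    rw [Real.log_pow] at e2
    push_cast at e2
    exact e2
  have hlogL0 : 0 ≤ Real.log L := Real.log_nonneg hL1
  have hK0 : (0 : ℝ) ≤ K₀ := Nat.cast_nonneg _
  have hK1 : (0 : ℝ) ≤ K₁ := Nat.cast_nonneg _
  obtain ⟨E, hE1, hE2⟩ := a1 ((mul_le_mul_of_nonneg_left hlogL hK0).trans hy1) (by
    refine hy2.trans ?_
    push_cast
    calc (K₁ : ℝ) * Real.log n ≤ K₁ * (2 * Real.log L) := mul_le_mul_of_nonneg_left hlogn hK1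
      _ = _ := by ring) Q (by
    calc (Q : ℝ) * L ^ B ≤ Q * (n : ℝ) ^ B := by gcongr
      _ ≤ 2 ^ n := hQ
      _ ≤ 2 ^ (n + 4) := pow_le_pow_right₀ (by norm_num) (by omega))
  refine ⟨E, hE1.trans (div_le_div_of_nonneg_left (Nat.cast_nonneg _) (by positivity) p1), fun q r hq hr U hU hUc => ?_⟩
  have h5 := hE2 (fun _ => 1) (fun _ => 0) r q hq (fun _ => ⟨le_rfl, le_rfl, Nat.zero_le _⟩) (fun _ l s hl hly hs hys hd => by
      have hd' : l ∣ 1 * s + 0 := hd
      rw [one_mul, add_zero] at hd'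
      have := (Nat.prime_dvd_prime_iff_eq hl hs).1 hd'
      omega)
    (fun i p hp hyp hpL hpq => (hr i p hp hyp (by
      have e1 : (p : ℝ) ≤ (n : ℝ) ^ B := hpL.trans (pow_le_pow_left₀ hL0.le hLn B)
      exact_mod_cast e1) hpq).mul_left _) U
    (fun p hp => mem_Icc.2 ⟨(hU p hp).1.one_le, (hU p hp).2.2.le⟩) (fun p hp => (hU p hp).1) (by
      calc (2 : ℝ) ^ (n + 4) = 16 * 2 ^ n := by rw [pow_add]; ring
        _ ≤ 16 * (U.card * (n : ℝ) ^ A) := by gcongr
        _ ≤ n * (U.card * (n : ℝ) ^ A) := by gcongr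
        _ = U.card * (n : ℝ) ^ (A + 1) := by rw [pow_succ]; ring
        _ ≤ U.card * L ^ (A + 2) := by gcongr)
  refine le_trans ((Nat.cast_le (α := ℝ)).2 (card_le_card fun m hm => ?_)) h5
  rw [mem_filter, Fintype.mem_piFinset] at hm ⊢
  refine ⟨fun i => hm.1 i, lt_of_le_of_lt (le_of_eq ?_) hm.2⟩
  unfold hits
  congr 2
  apply filter_congr
  intro p _
  refine forall_congr' fun i => ?_
  have : 1 * p + (primorial y * m i + 0) = p + primorial y * m i := by ring
  rw [this]

end Pool.Agent.Results.MP_b51559_nt.ArbitrarySetsOfPrimes
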