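import Pool.Agent.T2h83.GD.Least

/-!
# Prime pairs with the difference `h` in the interval `(n + 4, 2 ^ (n + 4))`: almost all even `h` in the residue
# classes of every modulus up to `2 ^ ((5 / 6 - ρ) n)`

The problem asks for a prime `p`, `n + 4 < p < 2 ^ (n + 4)`, with `p + 2` prime. We replace the difference `2` by even
differences `h ≤ 2 ^ (n + 4)` in a residue class `a` of a modulus `q` which can be as large as the power
`5 / 6 - ρ` of the length of the interval.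

For `1 ≤ u ≤ 3` let `F(u) = log u + ∫_1^(u/2) log ((u - s) / s) ds / s` (the integral is absent for `u ≤ 2`).
Let `2 / 3 ≤ θ ≤ 5 / 6` and `F = F (θ / (2 - 2 θ))`, so that `0 ≤ F ≤ 0.965`. For every modulus
`q ≤ 2 ^ ((θ - ρ) n)` and every residue class `a` modulo `q` with `gcd(a, q) ≤ n ^ T`, all but at most
`2 ^ n / (q n ^ A)` of the even `h ≤ 2 ^ (n + 4)`, `h ≡ a (mod q)`, have the following property: every window
`(u, v]` inside the interval `(n + 4, 2 ^ (n + 4))` of length at least `2 ^ (n + 4) / n ^ W` contains between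
`1 - F² - ε` times and `1 + F + ε` times the number of the primes `p` with `p + h` prime which Hardy and Littlewood
predict. Hence each class `a` modulo `q` with `gcd(a, q) ≤ (log q)^T` (`a` even, if `q` is even) contains a difference
`p' - p` of two primes `p < p' ≤ q ^ (6 / 5 + ε)`.

The proof (projects GT and GD, `T2h83/GT`, `T2h83/GD`) compares the primes with the sieve function
`1_{no prime factor ≤ N ^ (1 - θ)}(n) * Σ_{d ∣ n, d > N ^ (1 - θ / 2)} Λ(d)`, which is at least `Λ`, whose mean value is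
`1 + F`, and which is well distributed in the arithmetic progressions of the moduli `q r`, `r` small.
-/

set_option autoImplicit false

namespace Pool.Agent.Results.MP_b51559_nt.EveryModulusFiveSixths

open Finset
open Pool.Agent.H560R3.GB (sing)

/-- the number of the primes `p` with `u < p ≤ v` such that `p + h` is a prime -/
def pairs (h u v : ℕ) : ℕ := ((Ioc u v).filter (fun p => p.Prime ∧ (p + h).Prime)).card

/-- Every window `(u, v] ⊆ (n + 4, 2 ^ (n + 4))` of length at least `2 ^ (n + 4) / n ^ W` contains between `lo` times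
and `hi` times `𝔖(h) (v - u) / (log 2 ^ (n + 4))²` primes `p` such that `p + h` is a prime. -/
def Good (W : ℕ) (lo hi : ℝ) (n h : ℕ) : Prop :=
  ∀ u v : ℕ, n + 4 ≤ u → v < 2 ^ (n + 4) → (2 : ℝ) ^ (n + 4) / (n : ℝ) ^ W ≤ (v : ℝ) - u →
    lo * (sing h * ((v : ℝ) - u) / Real.log ((2 : ℝ) ^ (n + 4)) ^ 2) ≤ (pairs h u v : ℝ) ∧
    (pairs h u v : ℝ) ≤ hi * (sing h * ((v : ℝ) - u) / Real.log ((2 : ℝ) ^ (n + 4)) ^ 2)

open Classical in
/-- the even `h ≤ 2 ^ (n + 4)` with `h ≡ a (mod q)` which are not good -/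
noncomputable def bad (W : ℕ) (lo hi : ℝ) (n q : ℕ) (a : ℤ) : Finset ℕ :=
  (Icc 1 (2 ^ (n + 4))).filter (fun h : ℕ => Even h ∧ (h : ℤ) ≡ a [ZMOD q] ∧ ¬ Good W lo hi n h)

/-- the function `F(u) = log u + ∫_1^(u/2) log ((u - s) / s) ds / s` -/
noncomputable def F (u : ℝ) : ℝ := Real.log u + ∫ s in (1 : ℝ)..max 1 (u / 2), Real.log ((u - s) / s) / s

/-- comparison of powers -/
lemma pow_cmp (k A n : ℕ) (h : k < A) (hn : 2 ^ A ≤ n) :
    (n : ℝ) ^ k ≤ Real.log ((2 : ℝ) ^ (n + 4)) ^ A := by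
  have h1 : (n : ℝ) / 2 ≤ Real.log ((2 : ℝ) ^ (n + 4)) := by
    rw [Real.log_pow]
    have h2 := Real.log_two_gt_d9
    have h3 : (0 : ℝ) ≤ n := Nat.cast_nonneg n
    push_cast
    nlinarith
  have h2 : ((2 : ℝ) ^ A) ≤ n := by exact_mod_cast hn
  have h3 : (0 : ℝ) < n := lt_of_lt_of_le (by positivity) h2
  have h4 : (1 : ℝ) ≤ n := le_trans (one_le_pow₀ (by norm_num)) h2
  calc (n : ℝ) ^ k ≤ ((n : ℝ) / 2) ^ A := by
        rw [div_pow, le_div_iff₀ (by positivity)]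
        calc (n : ℝ) ^ k * 2 ^ A ≤ (n : ℝ) ^ k * n := by gcongr
          _ = (n : ℝ) ^ (k + 1) := (pow_succ _ _).symm
          _ ≤ (n : ℝ) ^ A := pow_le_pow_right₀ h4 h
    _ ≤ _ := pow_le_pow_left₀ (by positivity) h1 A

/-- Let `2 / 3 ≤ θ ≤ 5 / 6` and `F = F (θ / (2 - 2 θ))`. Then `0 ≤ F ≤ 0.965`, and for all `ε, ρ > 0` and all
`A, W, T`, for all large `n`, every modulus `q ≤ 2 ^ ((θ - ρ) n)` and every class `a` with `gcd(a, q) ≤ n ^ T`, all but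
at most `2 ^ n / (q n ^ A)` of the even `h ≤ 2 ^ (n + 4)`, `h ≡ a (mod q)`, are good with the constants `1 - F² - ε` and
`1 + F + ε`. For all large `q`, each class `a` modulo `q` with `gcd(a, q) ≤ (log q)^T` (`a` even, if `q` is even)
contains the difference of two primes `p < p' ≤ q ^ (6 / 5 + ε)`. -/
theorem result :
    (∀ θ : ℝ, 2 / 3 ≤ θ → θ ≤ 5 / 6 →
      (0 ≤ F (θ / (2 - 2 * θ)) ∧ F (θ / (2 - 2 * θ)) ≤ 0.965) ∧
      ∀ ε : ℝ, 0 < ε → ∀ ρ : ℝ, 0 < ρ → ∀ A W T : ℕ, ∃ n₀ : ℕ, ∀ n : ℕ, n₀ ≤ n → ∀ q : ℕ, 1 ≤ q →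
        (q : ℝ) ≤ (2 : ℝ) ^ ((θ - ρ) * n) → ∀ a : ℤ, (Int.gcd a q : ℝ) ≤ (n : ℝ) ^ T →
          ((bad W (1 - F (θ / (2 - 2 * θ)) ^ 2 - ε) (1 + F (θ / (2 - 2 * θ)) + ε) n q a).card : ℝ) ≤
            (2 : ℝ) ^ n / (q * (n : ℝ) ^ A)) ∧
    (∀ ε : ℝ, 0 < ε → ∀ T : ℕ, ∃ q₀ : ℕ, ∀ q : ℕ, q₀ ≤ q → ∀ a : ℤ, (Int.gcd a q : ℝ) ≤ Real.log q ^ T →
      (Even a ∨ Odd q) →
      ∃ p p' : ℕ, p.Prime ∧ p'.Prime ∧ p < p' ∧ ((p' : ℤ) - p) ≡ a [ZMOD q] ∧ (p' : ℝ) ≤ (q : ℝ) ^ (6 / 5 + ε)) := by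
  classical
  refine ⟨fun θ hθ0 hθ1 => ?_, fun ε hε T => Pool.Agent.T2h83.GD.least_one ε hε T⟩
  have hFU : ∀ u, F u = Pool.Agent.T2h83.GT.FU u := fun u => rfl
  obtain ⟨hb0, hb1⟩ := Pool.Agent.T2h83.GT.FU_bd hθ0 hθ1
  rw [hFU]
  refine ⟨⟨hb0, by linarith⟩, fun ε hε ρ hρ A W T => ?_⟩
  obtain ⟨G, hG⟩ : ∃ G, G = Pool.Agent.T2h83.GT.FU (θ / (2 - 2 * θ)) := ⟨_, rfl⟩
  obtain ⟨B, hB⟩ : ∃ B, B = A + W + T + 5 := ⟨_, rfl⟩
  obtain ⟨x₀, h1⟩ := Pool.Agent.T2h83.GD.gd_one ε hε hθ0 hθ1 ρ hρ B B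
  rw [← hG] at h1 ⊢
  obtain ⟨N₁, hN₁⟩ := exists_nat_ge x₀
  obtain ⟨M, hM⟩ : ∃ M : ℕ, M = 2 ^ B := ⟨_, rfl⟩
  refine ⟨N₁ + M + 2, fun n hn q hq hqn a ha => ?_⟩
  obtain ⟨x, hx⟩ : ∃ x : ℝ, x = (2 : ℝ) ^ (n + 4) := ⟨_, rfl⟩
  have hx0 : 0 < x := by rw [hx]; positivity
  have hnB : 2 ^ B ≤ n := by rw [← hM]; omega
  have hn2 : (2 : ℝ) ≤ n := by exact_mod_cast (by omega : 2 ≤ n)
  have hn0 : (0 : ℝ) < n := by linarith
  have hn1 : (1 : ℝ) ≤ n := by linarith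
  have hq0 : (0 : ℝ) < q := by exact_mod_cast hq
  have hxx : x₀ ≤ x := by
    have e1 : (n : ℝ) ≤ x := by
      rw [hx]
      have e2 : n < 2 ^ n := Nat.lt_two_pow_self
      have e3 : (n : ℝ) ≤ (2 : ℝ) ^ n := by exact_mod_cast e2.le
      exact e3.trans (pow_le_pow_right₀ (by norm_num) (by omega))
    have e2 : (N₁ : ℝ) ≤ n := by exact_mod_cast (by omega : N₁ ≤ n)
    linarith
  have hxr : (2 : ℝ) ^ ((n : ℝ) + 4) = x := by
    rw [hx, show ((n : ℝ) + 4) = ((n + 4 : ℕ) : ℝ) by push_cast; ring, Real.rpow_natCast]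
  have hqx : (q : ℝ) ≤ x ^ (θ - ρ) := by
    rcases le_or_gt 0 (θ - ρ) with hc | hc
    · refine hqn.trans ?_
      rw [← hxr, ← Real.rpow_mul (by norm_num)]
      apply Real.rpow_le_rpow_of_exponent_le (by norm_num)
      nlinarith
    · exfalso
      have h3 : (2 : ℝ) ^ ((θ - ρ) * n) < 1 :=
        Real.rpow_lt_one_of_one_lt_of_neg (by norm_num) (mul_neg_of_neg_of_pos hc hn0)
      have h4 : (1 : ℝ) ≤ q := by exact_mod_cast hq
      linarith
  have hcmp : ∀ k : ℕ, k < B → (n : ℝ) ^ k ≤ Real.log x ^ B := fun k hk => by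
    rw [hx]
    exact pow_cmp k B n hk hnB
  obtain ⟨g1, g2⟩ := h1 x hxx q hq hqx a (ha.trans (hcmp T (by omega)))
  have hnk : ∀ k : ℕ, (0 : ℝ) < (n : ℝ) ^ k := fun k => by positivity
  have hlog0 : 0 < Real.log x ^ B := lt_of_lt_of_le (hnk 0) (hcmp 0 (by omega))
  have hcoe : (2 : ℝ) ^ (n + 4) = ((2 ^ (n + 4) : ℕ) : ℝ) := by push_cast; ring
  -- the exceptional set
  have hsub : ((bad W (1 - G ^ 2 - ε) (1 + G + ε) n q a : Finset ℕ) : Set ℕ) ⊆
      Pool.Agent.T2h83.GD.exceptional 1 B (1 - G ^ 2 - ε) (1 + G + ε) x q a := by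
    intro h hh
    rw [mem_coe] at hh
    unfold bad at hh
    rw [mem_filter, mem_Icc] at hh
    obtain ⟨⟨b1, b2⟩, b3, b4, b5⟩ := hh
    refine ⟨b1, ?_, ?_, Nat.coprime_one_right h, b4, fun hgood => b5 ?_⟩
    · rw [hx, hcoe]
      exact_mod_cast b2
    · rw [one_mul]
      exact b3.two_dvd
    · intro u v hu hv huv
      have hvx : (v : ℝ) ≤ x := by
        rw [hx, hcoe]
        exact_mod_cast hv.le
      have hlen : x / Real.log x ^ B ≤ (v : ℝ) - u := by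
        refine le_trans ?_ huv
        rw [hx]
        rw [hx] at hcmp
        exact div_le_div_of_nonneg_left (by positivity) (hnk W) (hcmp W (by omega))
      obtain ⟨k1, k2⟩ := hgood u v (Nat.cast_nonneg u) hvx hlen
      rw [one_mul, hx] at k1 k2
      have e : Pool.Agent.T2h83.GD.pairs 1 h u v = pairs h u v := by
        rw [Pool.Agent.T2h83.GD.pairs_eq 1 h u v (Nat.cast_nonneg u) (Nat.cast_nonneg v), Nat.floor_natCast,
          Nat.floor_natCast]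
        unfold Pool.Agent.T2h83.GD.cntD pairs
        simp only [one_mul]
      rw [e] at k1 k2
      exact ⟨k1, k2⟩
  have h3 := Set.ncard_le_ncard hsub g1
  rw [Set.ncard_coe_finset] at h3
  have h4 : ((bad W (1 - G ^ 2 - ε) (1 + G + ε) n q a).card : ℝ) ≤ x / (q * Real.log x ^ B) :=
    le_trans (by exact_mod_cast h3) g2
  refine h4.trans ?_
  rw [div_le_div_iff₀ (by positivity) (by positivity)]
  have h5 : 16 * (n : ℝ) ^ A ≤ Real.log x ^ B := by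
    refine le_trans ?_ (hcmp (A + 4) (by omega))
    rw [pow_add, mul_comm]
    apply mul_le_mul_of_nonneg_left _ (hnk A).le
    calc (16 : ℝ) = 2 ^ 4 := by norm_num
      _ ≤ (n : ℝ) ^ 4 := pow_le_pow_left₀ (by norm_num) hn2 4
  calc x * (q * (n : ℝ) ^ A) = (2 : ℝ) ^ n * (q * (16 * (n : ℝ) ^ A)) := by
        rw [hx, pow_add]
        ring
    _ ≤ (2 : ℝ) ^ n * (q * Real.log x ^ B) := by gcongr

end Pool.Agent.Results.MP_b51559_nt.EveryModulusFiveSixths
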