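import Mathlib
import Pool.Agent.T2h83.TH.QVec

/-!
# Prime pairs with the difference `h` in the interval `(n + 4, 2 ^ (n + 4))` for `h` in thin sets

The problem asks for a prime `p`, `n + 4 < p < 2 ^ (n + 4)`, with `p + 2` prime. We replace `2` by the elements of thin sets.
For almost all moduli `q` and for EVERY set `S` of differences `h ≤ 2 ^ (n + 4)` which lies in one residue class modulo `q` and
has, up to a power of `n`, not more additive energy (of some order `t`) than the whole class, almost all the even `h ∈ S`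
satisfy the conjecture of Hardy and Littlewood on the number of the primes `p` in the interval with `p + h` prime. Such sets
can have as few as `(2 ^ n / q) ^ (1 / t)` elements. For instance `S` can be the set of the values of a quadratic polynomial at
the elements of a residue class modulo `q`, for `q` up to `2 ^ (n / 4)`.

Method: Parseval and Hoelder with the moment of order `2 t` of the exponential sum of `S`, whose absolute value has the
period `1 / q`, and the bound of project AM for the mean square of the exponential sum of `Λ` minus a sieve model over the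
translates by the multiples of `1 / q`; for the quadratic polynomials the mean value of Vinogradov for three variables.
-/

set_option autoImplicit false

namespace Pool.Agent.Results.MP_b51559_nt.ThinSetsOfDifferences

open Finset Filter

/-- the number of the primes `p`, `n + 4 < p < 2 ^ (n + 4)`, for which `p + h` is prime -/
def pairs (h n : ℕ) : ℕ := ((Ioo (n + 4) (2 ^ (n + 4))).filter (fun p : ℕ => p.Prime ∧ (p + h).Prime)).card

/-- twice the product over the primes `2 < l ≤ z` of `l / (l - 1)` for the divisors `l` of `h` and of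
`l (l - 2) / (l - 1) ^ 2` for the other primes `l` -/
noncomputable def constant (h z : ℕ) : ℝ :=
  2 * ∏ l ∈ (Icc 3 z).filter Nat.Prime, if l ∣ h then (l : ℝ) / (l - 1) else (l : ℝ) * (l - 2) / (l - 1) ^ 2

/-- for even `h`: the asymptotic formula for `pairs h n`, up to the factors `1 ± ε`, with the limit `P ≥ κ` of
`constant h z`, `z → ∞` -/
def Predicted (κ ε : ℝ) (n h : ℕ) : Prop :=
  Even h → ∃ P : ℝ, κ ≤ P ∧ Tendsto (constant h) atTop (nhds P) ∧
    |(pairs h n : ℝ) - P * 2 ^ (n + 4) / Real.log ((2 : ℝ) ^ (n + 4)) ^ 2| ≤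
      ε * (P * 2 ^ (n + 4) / Real.log ((2 : ℝ) ^ (n + 4)) ^ 2)

open Pool.Agent.T2h83.AM in
lemma nu_odd (h l : ℕ) (hl : l.Prime) (h3 : 3 ≤ l) :
    nuL (fun _ : Fin 1 => 1) (fun _ => h) l = if l ∣ h then 1 else 2 := by
  have : Fact l.Prime := ⟨hl⟩
  have h4 : ¬ l ∣ 1 := by
    intro hd
    have := Nat.le_of_dvd (by norm_num) hd
    omega
  split_ifs with hd
  · unfold nuL
    rw [card_eq_one]
    refine ⟨0, ?_⟩
    ext n
    rw [mem_filter, mem_range, mem_singleton]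
    constructor
    · rintro ⟨h1, h2 | ⟨i, hi⟩⟩
      · exact Nat.eq_zero_of_dvd_of_lt h2 h1
      · have h5 : l ∣ 1 * n := (Nat.dvd_add_left hd).1 hi
        exact Nat.eq_zero_of_dvd_of_lt ((hl.dvd_mul.1 h5).resolve_left h4) h1
    · rintro rfl
      exact ⟨hl.pos, Or.inl (dvd_zero _)⟩
  · have h1 := nuL_le (k := 1) (fun _ : Fin 1 => 1) (fun _ => h) l hl (fun _ h => h4 h.1)
    have hh : 1 ≤ h := Nat.pos_of_ne_zero (fun h0 => hd (h0 ▸ dvd_zero _))
    have h2 := nuL_good (k := 1) (fun _ : Fin 1 => 1) (fun _ => h)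
      ⟨fun _ => hh, fun i j hij => absurd (Subsingleton.elim i j) hij⟩ l hl (fun _ => h4) (by
        unfold badL
        rw [mem_union, mem_biUnion, mem_biUnion]
        rintro (⟨i, -, hi⟩ | ⟨t, ht, -⟩)
        · exact hd (Nat.dvd_of_mem_primeFactors hi)
        · rw [mem_filter] at ht
          exact ht.2 (Subsingleton.elim _ _))
    omega

open Pool.Agent.T2h83.AM in
lemma nu_two (h : ℕ) (hh : Even h) : nuL (fun _ : Fin 1 => 1) (fun _ => h) 2 = 1 := by
  unfold nuL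
  rw [card_eq_one]
  refine ⟨0, ?_⟩
  ext n
  rw [mem_filter, mem_range, mem_singleton]
  constructor
  · rintro ⟨h1, h2 | ⟨i, hi⟩⟩
    · exact Nat.eq_zero_of_dvd_of_lt h2 h1
    · obtain ⟨m, rfl⟩ := hh
      simp only at hi
      omega
  · rintro rfl
    exact ⟨by norm_num, Or.inl (dvd_zero _)⟩

open Pool.Agent.T2h83.AM in
lemma constant_eq (s z : ℕ) (hs : Even s) (hz : 2 ≤ z) : sgL (fun _ : Fin 1 => 1) (fun _ => s) z = constant s z := by
  unfold sgL constant Pool.Agent.H373R2.T7.pz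
  have h1 : (Icc 1 z).filter Nat.Prime = insert 2 ((Icc 3 z).filter Nat.Prime) := by
    ext p
    rw [mem_insert, mem_filter, mem_filter, mem_Icc, mem_Icc]
    constructor
    · rintro ⟨⟨h1, h2⟩, h3⟩
      have := h3.two_le
      rcases Nat.eq_or_lt_of_le this with h4 | h4
      · exact Or.inl h4.symm
      · exact Or.inr ⟨⟨h4, h2⟩, h3⟩
    · rintro (rfl | ⟨⟨h1, h2⟩, h3⟩)
      · exact ⟨⟨by norm_num, hz⟩, Nat.prime_two⟩
      · exact ⟨⟨by omega, h2⟩, h3⟩
  rw [h1, prod_insert (by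
    intro h2
    rw [mem_filter, mem_Icc] at h2
    omega)]
  congr 1
  · unfold FpL
    rw [nu_two _ hs]
    norm_num
  · refine prod_congr rfl fun l hl => ?_
    rw [mem_filter, mem_Icc] at hl
    unfold FpL
    rw [nu_odd _ _ hl.2 hl.1.1]
    have hl3 : (3 : ℝ) ≤ l := by exact_mod_cast hl.1.1
    have e1 : (l : ℝ) - 1 ≠ 0 := by
      have : (0 : ℝ) < l - 1 := by linarith
      exact this.ne'
    have e2 : (l : ℝ) ≠ 0 := by positivity
    have e3 : (1 : ℝ) - 1 / l = (l - 1) / l := by field_simp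
    rw [e3]
    split_ifs
    · push_cast
      field_simp
    · push_cast
      field_simp

lemma adm (s : ℕ) (hs : Even s) : Pool.Agent.T2h83.AM.AdmL (fun _ : Fin 1 => 1) (fun _ => s) := by
  intro l hl
  by_cases h2 : l = 2
  · subst h2
    refine ⟨1, by norm_num, fun _ => ?_⟩
    obtain ⟨m, rfl⟩ := hs
    simp only
    omega
  · have h3 : 3 ≤ l := by
      have := hl.two_le
      omega
    have h1 : Pool.Agent.T2h83.AM.nuL (fun _ : Fin 1 => 1) (fun _ => s) l ≤ 2 := by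
      rw [nu_odd _ _ hl h3]
      split_ifs <;> norm_num
    by_contra hcon
    push Not at hcon
    have h4 : Pool.Agent.T2h83.AM.nuL (fun _ : Fin 1 => 1) (fun _ => s) l = l := by
      unfold Pool.Agent.T2h83.AM.nuL
      rw [filter_true_of_mem, card_range]
      intro n _
      by_cases h5 : l ∣ n
      · exact Or.inl h5
      · exact Or.inr (hcon n h5)
    omega


/-- comparison of powers -/
lemma pow_cmp (k A n : ℕ) (h : k < A) (hn : 2 ^ A ≤ n) :
    (n : ℝ) ^ k ≤ Real.log ((2 : ℝ) ^ (n + 4)) ^ A := by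
  have h1 : (n : ℝ) / 2 ≤ Real.log ((2 : ℝ) ^ (n + 4)) := by
    rw [Real.log_pow]
    have h2 := Real.log_two_gt_d9
    have h3 : (0 : ℝ) ≤ n := Nat.cast_nonneg n
    push_cast
    nlinarith
  have h2 : ((2 : ℝ) ^ A) ≤ n := by exact_mod_cast hn
  have h3 : (0 : ℝ) < n := lt_of_lt_of_le (by positivity) h2
  have h4 : (1 : ℝ) ≤ n := le_trans (one_le_pow₀ (by norm_num)) h2
  calc (n : ℝ) ^ k ≤ ((n : ℝ) / 2) ^ A := by
        rw [div_pow, le_div_iff₀ (by positivity)]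
        calc (n : ℝ) ^ k * 2 ^ A ≤ (n : ℝ) ^ k * n := by gcongr
          _ = (n : ℝ) ^ (k + 1) := (pow_succ _ _).symm
          _ ≤ (n : ℝ) ^ A := pow_le_pow_right₀ h4 h
    _ ≤ _ := pow_le_pow_left₀ (by positivity) h1 A

open Pool.Agent.T2h83.AM in
lemma predicted_of {κ ε : ℝ} {n h : ℕ} (hκ : 0 < κ) (hsmall : ((n + 4 : ℕ) : ℝ) ≤
    (ε / 2) * (κ * 2 ^ (n + 4) / Real.log ((2 : ℝ) ^ (n + 4)) ^ 2)) (hε : 0 < ε)
    (h4 : GoodC (ε / 2) κ (2 ^ (n + 4)) (fun _ : Fin 1 => 1) (fun _ => h)) : Predicted κ ε n h := by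
  intro hs
  obtain ⟨S, g1, g2, g3⟩ := h4 (adm h hs)
  refine ⟨S, g1, ?_, ?_⟩
  · refine g2.congr' ?_
    filter_upwards [eventually_ge_atTop 2] with z hz
    exact constant_eq h z hs hz
  · have h5 : pairs h n ≤ Pool.Agent.T2h83.AM.cntL (fun _ : Fin 1 => 1) (fun _ => h) (2 ^ (n + 4)) := by
      unfold Pool.Agent.T2h83.AM.cntL pairs
      apply card_le_card
      intro p hp
      rw [mem_filter, mem_Ioo] at hp
      rw [mem_filter, mem_Icc]
      refine ⟨⟨by omega, hp.1.2.le⟩, hp.2.1, fun _ => ?_⟩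
      rw [one_mul]
      exact hp.2.2
    have h6 : Pool.Agent.T2h83.AM.cntL (fun _ : Fin 1 => 1) (fun _ => h) (2 ^ (n + 4)) ≤ pairs h n + (n + 4) := by
      unfold Pool.Agent.T2h83.AM.cntL pairs
      have h7 : (Icc 1 (2 ^ (n + 4))).filter (fun p : ℕ => p.Prime ∧ ∀ i : Fin 1, (1 * p + h).Prime) ⊆
          (Ioo (n + 4) (2 ^ (n + 4))).filter (fun p : ℕ => p.Prime ∧ (p + h).Prime) ∪ Icc 1 (n + 4) := by
        intro p hp
        rw [mem_filter, mem_Icc] at hp
        rw [mem_union, mem_filter, mem_Ioo, mem_Icc]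
        rcases Nat.lt_or_ge (n + 4) p with h8 | h8
        · left
          have h9 : p ≠ 2 ^ (n + 4) := by
            rintro rfl
            have := hp.2.1
            rw [show n + 4 = (n + 3) + 1 by ring, pow_succ] at this
            exact Nat.not_prime_mul (by
              have : 2 ≤ 2 ^ (n + 3) := by
                calc 2 = 2 ^ 1 := by norm_num
                  _ ≤ 2 ^ (n + 3) := Nat.pow_le_pow_right (by norm_num) (by omega)
              omega) (by norm_num) this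
          have h10 := hp.2.2 0
          rw [one_mul] at h10
          exact ⟨⟨h8, lt_of_le_of_ne hp.1.2 h9⟩, hp.2.1, h10⟩
        · right
          exact ⟨hp.1.1, h8⟩
      refine (card_le_card h7).trans ((card_union_le _ _).trans ?_)
      rw [Nat.card_Icc]
      omega
    have e5 : (pairs h n : ℝ) ≤ (Pool.Agent.T2h83.AM.cntL (fun _ : Fin 1 => 1) (fun _ => h) (2 ^ (n + 4)) : ℝ) := by
      exact_mod_cast h5
    have e6 : (Pool.Agent.T2h83.AM.cntL (fun _ : Fin 1 => 1) (fun _ => h) (2 ^ (n + 4)) : ℝ) ≤ pairs h n + ((n + 4 : ℕ) : ℝ) := by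
      exact_mod_cast h6
    obtain ⟨L, hL⟩ : ∃ L, L = Real.log ((2 : ℝ) ^ (n + 4)) := ⟨_, rfl⟩
    have hcast : (((2 ^ (n + 4) : ℕ) : ℝ)) = (2 : ℝ) ^ (n + 4) := by push_cast; rfl
    rw [hcast, ← hL] at g3
    rw [← hL] at hsmall ⊢
    have e7 : (ε / 2) * (κ * 2 ^ (n + 4) / L ^ 2) ≤ (ε / 2) * (S * 2 ^ (n + 4) / L ^ 2) := by gcongr
    have e8 : (1 + 1 : ℕ) = 2 := rfl
    rw [e8] at g3
    rw [abs_le] at g3 ⊢
    constructor <;> linarith [g3.1, g3.2]

/-- the number of the pairs of `t`-tuples of elements of `S` with the same sum -/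
def energy (t : ℕ) (S : Finset ℕ) : ℕ :=
  (((Fintype.piFinset (fun _ : Fin t => S)) ×ˢ (Fintype.piFinset (fun _ : Fin t => S))).filter
    (fun x => ∑ i, x.1 i = ∑ i, x.2 i)).card

/-- `S` is a set of numbers up to `2 ^ (n + 4)` in one residue class modulo `q` and the number `energy t S` is at most `n ^ T`
times `|S| ^ (2 t) q / 2 ^ n` -/
def ThinSet (t T n q : ℕ) (S : Finset ℕ) : Prop :=
  (∀ s ∈ S, s ≤ 2 ^ (n + 4)) ∧ (∃ r : ℕ, ∀ s ∈ S, s % q = r % q) ∧
    (energy t S : ℝ) ≤ (S.card : ℝ) ^ (2 * t) * q * (n : ℝ) ^ T / 2 ^ n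

open Classical in
/-- There is a constant `κ > 0` such that for all `A`, `T` and `ε > 0` the following holds.

(1) For every `t ≥ 1` there are `B` and `n₀` such that for all `n ≥ n₀` and all integers `Q` with `Q n ^ B ≤ 2 ^ n`, for all `q` in
`(Q, 2 Q]`, except for at most `Q / n ^ A` of them, and for EVERY set `S` with `ThinSet t T n q S` at most `|S| / n ^ A` elements
`h` of `S` do not satisfy: if `h` is even, the number of the primes `p`, `n + 4 < p < 2 ^ (n + 4)`, for which `p + h` is prime lies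
between `1 - ε` times and `1 + ε` times `P 2 ^ (n + 4) / (log 2 ^ (n + 4)) ^ 2`, where `P ≥ κ` is twice the product over the
primes `l > 2` of `l / (l - 1)` if `l` divides `h` and of `l (l - 2) / (l - 1) ^ 2` if not.

(2) There are `B` and `n₀` such that for all `n ≥ n₀` and all integers `Q` with `Q n ^ B ≤ 2 ^ n`, for all `q` in `(Q, 2 Q]`, except
for at most `Q / n ^ A` of them, and for ALL `a, b, c, ρ, V` with `a, V ≥ 1`, `2 ^ n ≤ (q V) ^ 2 n ^ T`, `q ≤ V n ^ T` and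
`gcd (2 a ρ + b, q) ≤ n ^ T` for which the values `h (v) = a k ^ 2 + b k + c`, `k = ρ + q v`, `0 ≤ v < V`, are at most
`2 ^ (n + 4)`, the number of the `v < V` for which `h (v)` does not satisfy the property of (1) is at most `V / n ^ A`. -/
theorem result : ∃ κ : ℝ, 0 < κ ∧ ∀ (A T : ℕ) (ε : ℝ), 0 < ε →
    (∀ t : ℕ, 1 ≤ t → ∃ B n₀ : ℕ, ∀ n : ℕ, n₀ ≤ n → ∀ Q : ℕ, (Q : ℝ) * (n : ℝ) ^ B ≤ 2 ^ n →
      ∃ E : Finset ℕ, (E.card : ℝ) ≤ Q / (n : ℝ) ^ A ∧ ∀ q ∈ Ioc Q (2 * Q), q ∉ E →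
        ∀ S : Finset ℕ, ThinSet t T n q S →
          ((S.filter (fun h => ¬ Predicted κ ε n h)).card : ℝ) ≤ (S.card : ℝ) / (n : ℝ) ^ A) ∧
    (∃ B n₀ : ℕ, ∀ n : ℕ, n₀ ≤ n → ∀ Q : ℕ, (Q : ℝ) * (n : ℝ) ^ B ≤ 2 ^ n →
      ∃ E : Finset ℕ, (E.card : ℝ) ≤ Q / (n : ℝ) ^ A ∧ ∀ q ∈ Ioc Q (2 * Q), q ∉ E →
        ∀ a b c ρ V : ℕ, 1 ≤ a → 1 ≤ V → (∀ v < V, a * (ρ + q * v) ^ 2 + b * (ρ + q * v) + c ≤ 2 ^ (n + 4)) →
          (2 : ℝ) ^ n ≤ (q * V : ℝ) ^ 2 * (n : ℝ) ^ T → (q : ℝ) ≤ V * (n : ℝ) ^ T →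
          (Nat.gcd (2 * a * ρ + b) q : ℝ) ≤ (n : ℝ) ^ T →
          (((range V).filter (fun v => ¬ Predicted κ ε n (a * (ρ + q * v) ^ 2 + b * (ρ + q * v) + c))).card : ℝ) ≤
            (V : ℝ) / (n : ℝ) ^ A) := by
  obtain ⟨κ, hκ, hmain⟩ := Pool.Agent.T2h83.TH.thin_count (k := 1) (fun _ => 1) (fun _ => by norm_num)
  refine ⟨κ, hκ, fun A T ε hε => ?_⟩
  have hlogN : ∀ n : ℕ, Real.log (((2 ^ (n + 4) : ℕ) : ℝ)) = Real.log ((2 : ℝ) ^ (n + 4)) := by
    intro n
    push_cast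
    rfl
  have key : ∀ t T : ℕ, 1 ≤ t → ∃ B n₀ : ℕ, ∀ n : ℕ, n₀ ≤ n → ∀ Q : ℕ, (Q : ℝ) * (n : ℝ) ^ B ≤ 2 ^ n →
      ∃ E : Finset ℕ, (E.card : ℝ) ≤ Q / (n : ℝ) ^ A ∧ ∀ q ∈ Ioc Q (2 * Q), q ∉ E →
        ∀ S : Finset ℕ, Pool.Agent.T2h83.TH.Thin t T (2 ^ (n + 4)) q S →
          ((S.filter (fun h => ¬ Predicted κ ε n h)).card : ℝ) ≤ (S.card : ℝ) / (n : ℝ) ^ A := by
    intro t T ht
    obtain ⟨B, N₀, h1⟩ := hmain (A + 1) t T (ε / 2) ht (by positivity)
    obtain ⟨N₁, h2⟩ := Pool.Agent.H373R2.T7.ev_log' 3 (4 / (ε * κ))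
    obtain ⟨M, hM⟩ : ∃ M : ℕ, M = 2 ^ (A + 1) := ⟨_, rfl⟩
    refine ⟨B, N₀ + N₁ + M + 16, fun n hn Q hQ => ?_⟩
    have hnN : n ≤ 2 ^ (n + 4) := by
      have e1 : n < 2 ^ n := Nat.lt_two_pow_self
      exact e1.le.trans (Nat.pow_le_pow_right (by norm_num) (by omega))
    have hn16 : (16 : ℝ) ≤ n := by exact_mod_cast (by omega : 16 ≤ n)
    have c1 := h1 (2 ^ (n + 4)) (le_trans (by omega) hnN) Q
    have c2 := h2 (2 ^ (n + 4)) (le_trans (by omega) hnN)
    rw [hlogN] at c1 c2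
    have hA : (n : ℝ) ^ A ≤ Real.log ((2 : ℝ) ^ (n + 4)) ^ (A + 1) :=
      pow_cmp A (A + 1) n (by omega) (by rw [← hM]; omega)
    have hLn : Real.log ((2 : ℝ) ^ (n + 4)) ≤ n := by
      rw [Real.log_pow]
      have := Real.log_two_lt_d9
      push_cast
      nlinarith
    have hLn2 : ((n + 4 : ℕ) : ℝ) ≤ 2 * Real.log ((2 : ℝ) ^ (n + 4)) := by
      rw [Real.log_pow]
      have := Real.log_two_gt_d9
      push_cast
      nlinarith
    obtain ⟨L, hL⟩ : ∃ L, L = Real.log ((2 : ℝ) ^ (n + 4)) := ⟨_, rfl⟩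
    have hcast : (((2 ^ (n + 4) : ℕ) : ℝ)) = (2 : ℝ) ^ (n + 4) := by push_cast; rfl
    have hL0 : 0 < L := by
      rw [hL]
      apply Real.log_pos
      exact one_lt_pow₀ (by norm_num) (by omega)
    have hsmall : ((n + 4 : ℕ) : ℝ) ≤ (ε / 2) * (κ * 2 ^ (n + 4) / Real.log ((2 : ℝ) ^ (n + 4)) ^ 2) := by
      rw [← hL] at c2 hLn2 ⊢
      rw [hcast] at c2
      have e1 : √((2 : ℝ) ^ (n + 4)) ≤ (2 : ℝ) ^ (n + 4) := by
        rw [Real.sqrt_le_left (by positivity)]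
        have : (1 : ℝ) ≤ 2 ^ (n + 4) := one_le_pow₀ (by norm_num)
        nlinarith
      have e2 : 4 * L ^ 3 ≤ (ε * κ) * 2 ^ (n + 4) := by
        have e3 := c2.trans e1
        rw [div_mul_eq_mul_div, div_le_iff₀ (by positivity)] at e3
        linarith
      refine hLn2.trans ?_
      have e4 : (ε / 2) * (κ * 2 ^ (n + 4) / L ^ 2) = (ε * κ * 2 ^ (n + 4)) / (2 * L ^ 2) := by
        field_simp
      rw [e4, le_div_iff₀ (by positivity)]
      calc 2 * L * (2 * L ^ 2) = 4 * L ^ 3 := by ring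
        _ ≤ _ := e2
    rw [← hL] at c1 hA hLn
    obtain ⟨E, hE1, hE2⟩ := c1 (by
      rw [hcast]
      calc (Q : ℝ) * L ^ B ≤ Q * (n : ℝ) ^ B := by gcongr
        _ ≤ 2 ^ n := hQ
        _ ≤ 2 ^ (n + 4) := pow_le_pow_right₀ (by norm_num) (by omega))
    refine ⟨E, hE1.trans (div_le_div_of_nonneg_left (Nat.cast_nonneg _) (by positivity) hA), fun q hq hqE S hS => ?_⟩
    have h2 := hE2 q hq hqE (fun _ => S) (fun _ => hS)
    rw [Fin.prod_univ_one] at h2
    refine le_trans ?_ (h2.trans (div_le_div_of_nonneg_left (Nat.cast_nonneg _) (by positivity) hA))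
    have h3 : (S.filter (fun s => ¬ Predicted κ ε n s)).card ≤
        ((Fintype.piFinset (fun _ : Fin 1 => S)).filter
          (fun h => ¬ Pool.Agent.T2h83.AM.GoodC (ε / 2) κ (2 ^ (n + 4)) (fun _ : Fin 1 => 1) h)).card := by
      apply card_le_card_of_injOn (fun s => (fun _ : Fin 1 => s))
      · intro s hs
        rw [mem_coe, mem_filter] at hs
        rw [mem_coe, mem_filter, Fintype.mem_piFinset]
        exact ⟨fun _ => hs.1, fun hcon => hs.2 (predicted_of hκ hsmall hε hcon)⟩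
      · intro s _ s' _ h
        exact congrFun h 0
    exact_mod_cast h3
  constructor
  · intro t ht
    obtain ⟨B, n₀, h1⟩ := key t (T + 2) ht
    obtain ⟨M, hM⟩ : ∃ M : ℕ, M = 2 ^ (T + 2) := ⟨_, rfl⟩
    refine ⟨B, n₀ + M + 16, fun n hn Q hQ => ?_⟩
    obtain ⟨E, hE1, hE2⟩ := h1 n (by omega) Q hQ
    refine ⟨E, hE1, fun q hq hqE S hS => hE2 q hq hqE S ⟨hS.1, hS.2.1, ?_⟩⟩
    have h2 := hS.2.2
    have h3 : (energy t S : ℝ) = (Pool.Agent.T2h83.TH.energy t S : ℝ) := rfl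
    rw [← h3]
    refine h2.trans ?_
    rw [hlogN]
    have hn16 : (16 : ℝ) ≤ n := by exact_mod_cast (by omega : 16 ≤ n)
    have h4 : 16 * (n : ℝ) ^ T ≤ Real.log ((2 : ℝ) ^ (n + 4)) ^ (T + 2) := by
      refine le_trans ?_ (pow_cmp (T + 1) (T + 2) n (by omega) (by rw [← hM]; omega))
      rw [pow_succ, mul_comm]
      gcongr
    push_cast
    rw [div_le_div_iff₀ (by positivity) (by positivity)]
    calc (S.card : ℝ) ^ (2 * t) * q * (n : ℝ) ^ T * 2 ^ (n + 4) = (S.card : ℝ) ^ (2 * t) * q * (16 * (n : ℝ) ^ T) * 2 ^ n := by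
          rw [pow_add (2 : ℝ) n 4]
          ring
      _ ≤ (S.card : ℝ) ^ (2 * t) * q * Real.log ((2 : ℝ) ^ (n + 4)) ^ (T + 2) * 2 ^ n := by gcongr
  · obtain ⟨B, n₀, h1⟩ := key 3 (2 * (T + 2) + 10) (by norm_num)
    obtain ⟨N₁, h2⟩ := Pool.Agent.T2h83.TH.quad_thin (T + 2)
    obtain ⟨M, hM⟩ : ∃ M : ℕ, M = 2 ^ (T + 2) := ⟨_, rfl⟩
    refine ⟨B, n₀ + N₁ + M + 16, fun n hn Q hQ => ?_⟩
    have hnN : n ≤ 2 ^ (n + 4) := by
      have e1 : n < 2 ^ n := Nat.lt_two_pow_self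
      exact e1.le.trans (Nat.pow_le_pow_right (by norm_num) (by omega))
    have hn16 : (16 : ℝ) ≤ n := by exact_mod_cast (by omega : 16 ≤ n)
    have hn0 : (0 : ℝ) < n := by linarith
    have h40 : 16 * (n : ℝ) ^ T ≤ Real.log ((2 : ℝ) ^ (n + 4)) ^ (T + 2) := by
      refine le_trans ?_ (pow_cmp (T + 1) (T + 2) n (by omega) (by rw [← hM]; omega))
      rw [pow_succ, mul_comm]
      gcongr
    have h41 : (n : ℝ) ^ T ≤ Real.log ((2 : ℝ) ^ (n + 4)) ^ (T + 2) := by
      refine le_trans ?_ h40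
      have : 0 ≤ (n : ℝ) ^ T := by positivity
      linarith
    obtain ⟨E, hE1, hE2⟩ := h1 n (by omega) Q hQ
    refine ⟨E, hE1, fun q hq hqE a b c ρ V ha hV hle hNV hqV hg => ?_⟩
    have hq1 : 1 ≤ q := by rw [mem_Ioc] at hq; omega
    obtain ⟨h3, h4⟩ := h2 (2 ^ (n + 4)) (le_trans (by omega) hnN) a b c q ρ V ha hq1 hV hle (by
      rw [hlogN]
      push_cast
      calc (2 : ℝ) ^ (n + 4) = 16 * 2 ^ n := by rw [pow_add]; ring
        _ ≤ 16 * ((q * V : ℝ) ^ 2 * (n : ℝ) ^ T) := by gcongr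
        _ = (q * V : ℝ) ^ 2 * (16 * (n : ℝ) ^ T) := by ring
        _ ≤ _ := by gcongr) (by
      rw [hlogN]
      exact hqV.trans (mul_le_mul_of_nonneg_left h41 (Nat.cast_nonneg _))) (by
      rw [hlogN]
      exact hg.trans h41)
    have h5 := hE2 q hq hqE ((range V).image (fun v => a * (ρ + q * v) ^ 2 + b * (ρ + q * v) + c)) ⟨fun s hs => by
      rw [mem_image] at hs
      obtain ⟨v, hv, rfl⟩ := hs
      exact hle v (mem_range.1 hv), h3, h4⟩
    rw [card_image_of_injOn (Pool.Agent.T2h83.TH.quad_inj ha hq1), card_range] at h5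
    refine le_trans ?_ h5
    have h6 : ((range V).filter (fun v => ¬ Predicted κ ε n (a * (ρ + q * v) ^ 2 + b * (ρ + q * v) + c))).card ≤
        (((range V).image (fun v => a * (ρ + q * v) ^ 2 + b * (ρ + q * v) + c)).filter (fun s => ¬ Predicted κ ε n s)).card := by
      apply card_le_card_of_injOn (fun v => a * (ρ + q * v) ^ 2 + b * (ρ + q * v) + c)
      · intro v hv
        rw [mem_coe, mem_filter] at hv
        rw [mem_coe, mem_filter]
        exact ⟨mem_image.2 ⟨v, hv.1, rfl⟩, hv.2⟩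
      · intro v hv w hw h
        rw [mem_coe, mem_filter] at hv hw
        exact Pool.Agent.T2h83.TH.quad_inj (V := V) ha hq1 hv.1 hw.1 h
    exact_mod_cast h6

end Pool.Agent.Results.MP_b51559_nt.ThinSetsOfDifferences
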